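import Mathlib
import Pool.Agent.Q219.UZ.RStmA

/-!
# The conjecture of Lichtenbaum for products with arbitrary varieties: statements
-/

set_option autoImplicit false

open CategoryTheory AlgebraicGeometry

universe u v w

namespace Pool.Agent.Q124.WE

open Polynomial Pool.Agent.H914 Pool.Agent.H914.VarClass Pool.Agent.H914.VarClass.Obj
  Pool.Agent.W492.BB Pool.Agent.W484.CK Pool.Agent.Q219.UZ.Lite

section

variable {k : Type u} [Field k] {𝒱 : VarClass k} {C : TheoryData.{u, v, 0} 𝒱 ℚ}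

/-- The endomorphisms `Fr X` are the Frobenius endomorphisms of the varieties `X` of the class over the
field `k` with `Q` elements, and the `T m`, `m > 0`, are the higher Chow groups with rational
coefficients: the degree `c` part of `T m` is `CH ^ c (X, m)_ℚ = H ^ (2 c - m) (X, ℚ(c))`. The known
facts which are used: Frobenius commutes with all morphisms, has degree `Q ^ dim X`, acts as
multiplication by `Q ^ c` on `CH ^ c (X)_ℚ` and on `CH ^ c (X, m)_ℚ`, and correspondences act on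
`CH ^ c (X, m)_ℚ`. -/
structure IsHigherChow (C : TheoryData.{u, v, 0} 𝒱 ℚ) (Fr : ∀ X : 𝒱.Obj, X ⟶ X) (Q : ℕ)
    (T : ℕ → MotivicData C) : Prop where
  natural : ∀ {X Y : 𝒱.Obj} (f : X ⟶ Y), Fr X ≫ f = f ≫ Fr Y
  frobenius : ∀ X, IsFrobenius C (Fr X) Q
  motivic : ∀ m, 0 < m → IsMotivic (T m)
  power : ∀ m, 0 < m → ∀ X, ActsAsPower (T m) (Fr X) Q

variable {K : Type w} [Field K] (H : WeilTheoryData.{u, v, w} C K) (Fr : ∀ X : 𝒱.Obj, X ⟶ X)
  (Q : ℕ) (T : ℕ → MotivicData C)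

/-- The statement `K ^ c (Y)` after tensoring with `ℚ`, for the prime number `ℓ`, where `H` is the
`ℓ`-adic cohomology of `Y` over an algebraic closure of `k`, with coefficients in an algebraic closure
`K` of `ℚ_ℓ`, in the form given to it by Geisser:

* `CH ^ c (Y, m)_ℚ = 0` for all `m > 0`;
* the cycle map `CH ^ c (Y) ⊗ K → H ^ (2 c) (Y)` is injective;
* its image is the generalized eigenspace of the Frobenius endomorphism for the eigenvalue `Q ^ c`
  (the Tate conjecture, and the semisimplicity of this eigenvalue). -/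
structure KStatement (Y : 𝒱.Obj) (c : ℤ) : Prop where
  parshin : ∀ m, 0 < m → VanishesIn (T m) Y c
  injective : ∀ (r : ℕ) (x : Fin r → C.A Y), (∀ j, C.Deg c (x j)) → LinearIndependent ℚ x →
    LinearIndependent K fun j => H.cl (x j)
  tate : ∀ (r : ℕ) (w : H.A Y), H.Deg (2 * c) w →
    (fun v => H.up (Fr Y) v - (Q : K) ^ c • v)^[r] w = 0 →
      w ∈ Submodule.span K {a : H.A Y | ∃ x : C.A Y, C.Deg c x ∧ a = H.cl x}

/-- The statement `L ^ n (Y)`: the groups `W Y n i = H_W ^ i (Y, ℤ(n))` are finitely generated. -/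
def LStatement (W : 𝒱.Obj → ℕ → ℤ → Type) [∀ Y n i, AddCommGroup (W Y n i)] (Y : 𝒱.Obj)
    (n : ℕ) : Prop :=
  ∀ i : ℤ, AddGroup.FG (W Y n i)

/-- The theorems of Geisser on the groups `W Y n i = H_W ^ i (Y, ℤ(n))`, `n ≥ 0`, for smooth
projective varieties: `K ^ n (Y)` and `K ^ (dim Y - n) (Y)` together imply `L ^ n (Y)`, and `L ^ n (Y)`
implies `K ^ n (Y)`. -/
structure IsWeilEtale (W : 𝒱.Obj → ℕ → ℤ → Type) [∀ Y n i, AddCommGroup (W Y n i)] : Prop where
  finite : ∀ (Y : 𝒱.Obj) (n : ℕ), KStatement H Fr Q T Y n → KStatement H Fr Q T Y (Y.dim - n) →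
    LStatement W Y n
  comparison : ∀ (Y : 𝒱.Obj) (n : ℕ), LStatement W Y n → KStatement H Fr Q T Y n

variable (W : 𝒱.Obj → ℕ → ℤ → Type) [∀ Y n i, AddCommGroup (W Y n i)]

/-- For all natural numbers `n`, all real numbers `e < (n + 1) δ` and all `A`, `B`, `Z` as in
`IsTripleFor` such that `Z` has level at most `e`:

* if `K ^ c' (B × Z)` holds for all natural numbers `c' ≤ c` with `2 c' + ⌊e⌋ ≤ 2 dim Z + n`, then
  `K ^ c (A × Z)` holds;
* if `L ^ c' (B × Z)` holds for all `c'` with `2 c' + ⌊e⌋ ≤ 2 dim Z + n` and with `c' ≤ m` or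
  `c' ≤ dim A + dim Z - m`, then `L ^ m (A × Z)` holds. -/
def LichtenbaumTimes (δ : ℝ) (q s : ℕ) {I : Type} (f : I → ℤ[X]) : Prop :=
  ∀ (n : ℕ) (e : ℝ) (A B Z : 𝒱.Obj), e < (n + 1) * δ →
    IsTripleFor H (Fr A) (Fr B) (Fr Z) n q s f → HasLevelLE H (Fr Z) (q ^ s) e →
    (∀ c : ℤ, (∀ c' : ℕ, (c' : ℤ) ≤ c → 2 * c' + ⌊e⌋₊ ≤ 2 * Z.dim + n →
      KStatement H Fr (q ^ s) T (B.prod Z) c') → KStatement H Fr (q ^ s) T (A.prod Z) c) ∧
    ∀ m : ℕ, (∀ c' : ℕ, 2 * c' + ⌊e⌋₊ ≤ 2 * Z.dim + n → (c' ≤ m ∨ c' + m ≤ A.dim + Z.dim) →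
      LStatement W (B.prod Z) c') → LStatement W (A.prod Z) m

/-- For all `A`, `X`, `Z` as in `IsTripleFor`, with `n = 1`, such that `Z` has the properties `IsNarrow`
and `HasInverse`, and such that `K ^ 1 (X × Z)` holds (for curves `Z` this is a theorem, for surfaces it
follows from the Tate conjecture for divisors on `Z`):

* if `K ^ c' (Z)` holds for all natural numbers `c' ≤ c` with `c' ≤ dim Z`, then `K ^ c (A × Z)` holds;
* if `K ^ c' (Z)` holds for all `c' ≤ dim Z`, then `L ^ m (A × Z)` holds for all `m`. -/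
def LichtenbaumTimesNarrow (δ δ₂ : ℝ) (q s : ℕ) {I : Type} (f : I → ℤ[X]) : Prop :=
  ∀ A X Z : 𝒱.Obj, IsTripleFor H (Fr A) (Fr X) (Fr Z) 1 q s f →
    IsNarrow H (Fr Z) (q ^ s) δ δ₂ → HasInverse H Z → KStatement H Fr (q ^ s) T (X.prod Z) 1 →
    (∀ c : ℤ, (∀ c' : ℕ, (c' : ℤ) ≤ c → c' ≤ Z.dim → KStatement H Fr (q ^ s) T Z c') →
      KStatement H Fr (q ^ s) T (A.prod Z) c) ∧
    ((∀ c' : ℕ, c' ≤ Z.dim → KStatement H Fr (q ^ s) T Z c') →
      ∀ m : ℕ, LStatement W (A.prod Z) m)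

end

/-- `LichtenbaumTheorem δ δ₂ q f`: for the Chow groups `C` and the higher Chow groups `T` with rational
coefficients of all classes `𝒱` of smooth projective varieties over fields `k` with `q ^ s` elements,
every Weil cohomology theory `H` with coefficients in an algebraically closed field `K` of
characteristic zero and all groups `W` as in `IsWeilEtale`, the statements `LichtenbaumTimes` and, if
`δ > 1 / 3`, `LichtenbaumTimesNarrow` hold. -/
def LichtenbaumTheorem (δ δ₂ : ℝ) (q : ℕ) {I : Type} (f : I → ℤ[X]) : Prop :=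
  ∀ (k : Type) [Field k] (𝒱 : VarClass k) (C : TheoryData.{0, 0, 0} 𝒱 ℚ) [IsChow C]
    (K : Type) [Field K] [IsAlgClosed K] [CharZero K] (H : WeilTheoryData.{0, 0, 0} C K)
    [IsWeil H] (s : ℕ) (Fr : ∀ X : 𝒱.Obj, X ⟶ X) (T : ℕ → MotivicData C)
    (W : 𝒱.Obj → ℕ → ℤ → Type) [∀ Y n i, AddCommGroup (W Y n i)],
    IsHigherChow C Fr (q ^ s) T → IsWeilEtale H Fr (q ^ s) T W →
      LichtenbaumTimes H Fr T W δ q s f ∧
        (1 < 3 * δ → LichtenbaumTimesNarrow H Fr T W δ δ₂ q s f)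

end Pool.Agent.Q124.WE
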