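import Mathlib
import Pool.Agent.W484.CH.Conj
import Pool.Agent.Q56.CP.Geo

/-!
# The kernel of the cycle map, with extended coefficients, as a theory on which correspondences act
-/

set_option autoImplicit false
set_option linter.unusedSectionVars false

open CategoryTheory AlgebraicGeometry

universe u v w

namespace Pool.Agent.Q124.WE

open Module Polynomial Pool.Agent.H914 Pool.Agent.H914.VarClass Pool.Agent.H914.VarClass.Obj
  Pool.Agent.W492.BB Pool.Agent.W550.Corr Pool.Agent.W484.CH Pool.Agent.TH133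

open scoped TensorProduct

variable {k : Type u} [Field k] {𝒱 : VarClass k} {C : TheoryData.{u, v, 0} 𝒱 ℚ} {K : Type v}
  [Field K] [CharZero K] (H : WeilTheoryData.{u, v, v} C K) [hC : IsChowProj C]
  [hH : IsWeilProj H] {X Y Z : 𝒱.Obj}

theorem cl_smul' (c : ℚ) (x : C.A X) : H.cl (c • x) = (algebraMap ℚ K c) • H.cl x := by
  rw [W484.CH.cl_smul, eq_ratCast]

/-- The cycle map with extended coefficients. -/
noncomputable def evA (X : 𝒱.Obj) : K ⊗[ℚ] C.A X →+ H.A X :=
  TensorProduct.liftAddHom
    (AddMonoidHom.mk' (fun c : K => (DistribSMul.toAddMonoidHom (H.A X) c).comp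
      (H.cl (X := X)).toAddMonoidHom) fun a b => by
        ext x
        exact add_smul a b _) fun r m x => by
    change (r • m) • H.cl x = m • H.cl (r • x)
    rw [cl_smul', smul_smul, mul_comm m, ← Algebra.smul_def r m]

theorem evA_tmul (c : K) (x : C.A X) : evA H X (c ⊗ₜ x) = c • H.cl x := rfl

theorem evA_smul (c : ℚ) (t : K ⊗[ℚ] C.A X) : evA H X (c • t) = (algebraMap ℚ K c) • evA H X t := by
  induction t using TensorProduct.induction_on with
  | zero => rw [smul_zero, map_zero, smul_zero]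
  | tmul a x => rw [← TensorProduct.tmul_smul, evA_tmul, evA_tmul, cl_smul', smul_comm]
  | add a b ha hb => rw [smul_add, map_add, map_add, smul_add, ha, hb]

/-- The classes of codimension `i` with extended coefficients. -/
noncomputable def extGr (K : Type v) [Field K] [CharZero K] (C : TheoryData.{u, v, 0} 𝒱 ℚ)
    (X : 𝒱.Obj) (i : ℤ) : Submodule ℚ (K ⊗[ℚ] C.A X) :=
  LinearMap.range (LinearMap.lTensor K (C.gr X i).subtype)

/-- The kernel of the cycle map with extended coefficients. -/
noncomputable def kerGr (X : 𝒱.Obj) (i : ℤ) : Submodule ℚ (K ⊗[ℚ] C.A X) where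
  carrier := {t | t ∈ extGr K C X i ∧ evA H X t = 0}
  zero_mem' := ⟨Submodule.zero_mem _, map_zero _⟩
  add_mem' := fun {a b} ha hb => ⟨Submodule.add_mem _ ha.1 hb.1, by
    rw [map_add, ha.2, hb.2, add_zero]⟩
  smul_mem' := fun c {a} ha => ⟨Submodule.smul_mem _ _ ha.1, by
    rw [evA_smul, ha.2, smul_zero]⟩

/-- The theory. -/
noncomputable def kerData : CorrData C where
  M := fun X => K ⊗[ℚ] C.A X
  gr := kerGr H
  act := LinearMap.lTensorHom K ∘ₗ actB C

theorem kerData_act (Γ : C.A (X.prod Y)) (t : K ⊗[ℚ] C.A X) :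
    (kerData H).act Γ t = LinearMap.lTensor K (actB C Γ) t := rfl

theorem evA_act (Γ : C.A (X.prod Y)) (t : K ⊗[ℚ] C.A X) :
    evA H Y (LinearMap.lTensor K (actB C Γ) t) = H.act (H.cl Γ) (evA H X t) := by
  induction t using TensorProduct.induction_on with
  | zero =>
    rw [map_zero, map_zero, map_zero]
    exact (map_zero (H.actL (H.cl Γ))).symm
  | tmul a x =>
    rw [LinearMap.lTensor_tmul, evA_tmul, evA_tmul]
    change a • H.cl (C.act Γ x) = H.actL (H.cl Γ) (a • H.cl x)
    rw [map_smul, ← Q56.CP.act_cl_cl]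
    rfl
  | add a b ha hb =>
    rw [map_add, map_add, map_add, ha, hb]
    exact (map_add (H.actL (H.cl Γ)) _ _).symm

theorem act_extGr {i j : ℤ} {Γ : C.A (X.prod Y)} (hΓ : C.Deg (X.dim + j) Γ) {t : K ⊗[ℚ] C.A X}
    (ht : t ∈ extGr K C X i) : LinearMap.lTensor K (actB C Γ) t ∈ extGr K C Y (i + j) := by
  obtain ⟨t', rfl⟩ := ht
  have h1 : ∀ m ∈ C.gr X i, actB C Γ m ∈ C.gr Y (i + j) := fun m hm => act_mem_chow hΓ hm
  have h2 : (actB C Γ) ∘ₗ (C.gr X i).subtype =
      (C.gr Y (i + j)).subtype ∘ₗ ((actB C Γ).restrict h1) := by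
    ext m
    rfl
  rw [← LinearMap.comp_apply, ← LinearMap.lTensor_comp, h2, LinearMap.lTensor_comp]
  exact ⟨_, rfl⟩

theorem kerData_isCorr : IsCorrTheory (kerData H) where
  app_mem := by
    intro X Y i j Γ m hΓ hm
    refine ⟨act_extGr hΓ hm.1, ?_⟩
    have h1 := evA_act H Γ (m : K ⊗[ℚ] C.A X)
    have h2 : evA H X m = 0 := hm.2
    rw [h2] at h1
    exact h1.trans (map_zero (H.actL (H.cl Γ)))
  app_comp := by
    intro X Y Z Γ Δ m
    change LinearMap.lTensor K (actB C (C.comp Γ Δ)) m =
      LinearMap.lTensor K (actB C Δ) (LinearMap.lTensor K (actB C Γ) m)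
    have h1 : actB C (C.comp Γ Δ) = actB C Δ ∘ₗ actB C Γ := by
      ext x
      exact C.act_comp Γ Δ x
    rw [h1, LinearMap.lTensor_comp]
    rfl
  app_id := by
    intro X m
    change LinearMap.lTensor K (actB C (dg C X)) m = m
    have h1 : actB C (dg C X) = LinearMap.id := by
      ext x
      exact act_dg C x
    rw [h1, LinearMap.lTensor_id]
    rfl

theorem kerData_power {f : X ⟶ X} {q : ℕ} (hf : IsFrobenius C f q) :
    ActsAsPower (kerData H) f q := by
  intro i m hm
  obtain ⟨t, rfl⟩ := hm.1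
  change LinearMap.lTensor K (actB C (C.cograph f)) (LinearMap.lTensor K (C.gr X i).subtype t) = _
  have h1 : actB C (C.cograph f) ∘ₗ (C.gr X i).subtype = ((q : ℚ) ^ i) • (C.gr X i).subtype := by
    ext m
    exact act_frobenius hf i m m.2
  rw [← LinearMap.comp_apply, ← LinearMap.lTensor_comp, h1, LinearMap.lTensor_smul]
  rfl

open Classical in
/-- The vanishing of the kernel. -/
theorem kerGr_iff (i : ℤ) : kerGr H X i = ⊥ ↔
    ∀ (r : ℕ) (x : Fin r → C.A X), (∀ j, x j ∈ C.gr X i) → LinearIndependent ℚ x →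
      LinearIndependent K fun j => H.cl (x j) := by
  constructor
  · intro h r x hx hx'
    rw [Fintype.linearIndependent_iff]
    intro g hg j
    set t : K ⊗[ℚ] C.A X := ∑ j, g j ⊗ₜ x j with ht
    have h1 : t ∈ kerGr H X i := by
      refine ⟨⟨∑ j, g j ⊗ₜ ⟨x j, hx j⟩, ?_⟩, ?_⟩
      · rw [map_sum]
        rfl
      · rw [ht, map_sum]
        exact hg
    rw [h, Submodule.mem_bot] at h1
    obtain ⟨φ, hφ⟩ := LinearMap.exists_extend ((Finsupp.lapply j : (Fin r →₀ ℚ) →ₗ[ℚ] ℚ) ∘ₗ
      hx'.repr)
    have h2 : ∀ l, φ (x l) = if l = j then 1 else 0 := by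
      intro l
      have h3 : φ (x l) = (φ ∘ₗ (Submodule.span ℚ (Set.range x)).subtype)
        ⟨x l, Submodule.subset_span ⟨l, rfl⟩⟩ := rfl
      rw [h3, hφ]
      change hx'.repr ⟨x l, _⟩ j = _
      rw [hx'.repr_eq_single l _ rfl, Finsupp.single_apply]
    have h4 : TensorProduct.rid ℚ K (LinearMap.lTensor K φ t) = 0 := by
      rw [h1, map_zero, map_zero]
    rw [ht, map_sum, map_sum] at h4
    simp only [LinearMap.lTensor_tmul, TensorProduct.rid_tmul, h2] at h4
    simpa using h4
  · intro h
    rw [eq_bot_iff]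
    intro t ht
    obtain ⟨⟨t', rfl⟩, ht2⟩ := ht
    let b := Basis.ofVectorSpace ℚ (C.gr X i)
    let E := TensorProduct.equivFinsuppOfBasisRight (M := K) b
    have h1 : t' = ∑ l ∈ (E t').support, (E t') l ⊗ₜ b l := by
      conv_lhs => rw [← E.symm_apply_apply t']
      exact TensorProduct.equivFinsuppOfBasisRight_symm_apply b (E t')
    have h2 : ∀ l ∈ (E t').support, (E t') l = 0 := by
      set S := (E t').support with hS
      let e : Fin S.card ≃ S := S.equivFin.symm
      have h3 := h S.card (fun j => (b (e j) : C.A X)) (fun j => (b (e j)).2) (by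
        have h4 : LinearIndependent ℚ (fun j : Fin S.card => b (e j)) :=
          b.linearIndependent.comp (fun j => ((e j : S) : _))
            (Subtype.val_injective.comp e.injective)
        exact h4.map' (C.gr X i).subtype (Submodule.ker_subtype _))
      rw [Fintype.linearIndependent_iff] at h3
      have h5 : ∑ j : Fin S.card, (E t') (e j) • H.cl (b (e j) : C.A X) = 0 := by
        have h6 : evA H X (LinearMap.lTensor K (C.gr X i).subtype t') =
            ∑ l ∈ S, (E t') l • H.cl (b l : C.A X) := by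
          conv_lhs => rw [h1]
          rw [map_sum, map_sum]
          rfl
        rw [h6] at ht2
        rw [← ht2, ← Finset.sum_coe_sort S]
        exact Fintype.sum_equiv e _ _ fun j => rfl
      intro l hl
      have h7 := h3 (fun j => (E t') (e j)) h5 (e.symm ⟨l, hl⟩)
      simpa using h7
    have h8 : t' = 0 := by
      rw [h1]
      exact Finset.sum_eq_zero fun l hl => by rw [h2 l hl, TensorProduct.zero_tmul]
    rw [h8, map_zero]
    exact Submodule.zero_mem _

theorem kerData_iff (i : ℤ) : (kerData H).gr X i = ⊥ ↔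
    ∀ (r : ℕ) (x : Fin r → C.A X), (∀ j, x j ∈ C.gr X i) → LinearIndependent ℚ x →
      LinearIndependent K fun j => H.cl (x j) := kerGr_iff H i

end Pool.Agent.Q124.WE
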