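import Mathlib
import Pool.Agent.Q219.UZ.RThm
import Pool.Agent.Q56.CP.Thy
import Pool.Agent.Q124.WE.Defs
import Pool.Agent.Q124.WE.Ker

/-!
# The conjecture of Lichtenbaum for products with arbitrary varieties: proofs
-/

set_option autoImplicit false
set_option linter.unusedSectionVars false

open CategoryTheory AlgebraicGeometry

universe u v w

namespace Pool.Agent.Q124.WE

open Module Polynomial Pool.Agent.H914 Pool.Agent.H914.VarClass Pool.Agent.H914.VarClass.Obj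
  Pool.Agent.W492.BB Pool.Agent.W550.Corr Pool.Agent.Q56.CP Pool.Agent.Q219.UZ
  Pool.Agent.Q219.UZ.Lite

open Pool.Agent.TH133 (IsChowProj IsWeilProj ch_comm)
open Pool.Agent.W484.CK (isStandard_bridge isFrobenius_bridge toCorr toCorr_isCorrTheory
  toCorr_actsAsPower MotivicData)

theorem vanishesIn_iff' {k : Type u} [Field k] {𝒱 : VarClass k} {C : TheoryData.{u, v, 0} 𝒱 ℚ}
    {T : MotivicData C} {X : 𝒱.Obj} {c : ℤ} : VanishesIn T X c ↔ (toCorr T).gr X c = ⊥ :=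
  ⟨fun h => (Submodule.eq_bot_iff _).2 h, fun h => (Submodule.eq_bot_iff _).1 h⟩

section

variable {k : Type u} [Field k] {𝒱 : VarClass k} {C : TheoryData.{u, v, 0} 𝒱 ℚ} {K : Type v}
  [Field K] [CharZero K] {H : WeilTheoryData.{u, v, v} C K} [hC : IsChowProj C]
  [hH : IsWeilProj H] {X Y Z : 𝒱.Obj} {Fr : ∀ X : 𝒱.Obj, X ⟶ X} {Q : ℕ} {T : ℕ → MotivicData C}

theorem iterate_eq_pow {π : Y ⟶ Y} (c : K) (r : ℕ) (w : H.A Y) :
    (fun v => H.up π v - c • v)^[r] w =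
      ((hF H π - c • (1 : Module.End K (H.A Y))) ^ r) w := by
  rw [Module.End.pow_apply]
  rfl

theorem tate_iff (hF : IsFrobFamily C Fr Q) (c : ℤ) :
    (∀ (r : ℕ) (w : H.A Y), H.Deg (2 * c) w →
      (fun v => H.up (Fr Y) v - (Q : K) ^ c • v)^[r] w = 0 →
        w ∈ Submodule.span K {a : H.A Y | ∃ x : C.A Y, C.Deg c x ∧ a = H.cl x}) ↔
      (cohData H Fr Q).gr Y c = ⊥ := by
  rcases lt_or_ge c 0 with hc | hc
  · have h1 : H.gr Y (2 * c) = ⊥ := H.gr_neg Y (2 * c) (by omega)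
    constructor
    · intro _
      rw [eq_bot_iff]
      intro m hm
      obtain ⟨⟨x, hx, hxm⟩, -⟩ := mem_cohData.1 hm
      rw [h1, Submodule.mem_bot] at hx
      rw [Submodule.mem_bot, ← hxm, hx]
      rfl
    · intro _ r w hw _
      have hw' : w ∈ H.gr Y (2 * c) := hw
      rw [h1, Submodule.mem_bot] at hw'
      rw [hw']
      exact Submodule.zero_mem _
  · obtain ⟨j, rfl⟩ := Int.eq_ofNat_of_zero_le hc
    constructor
    · intro h
      refine coh_of_strong hF ?_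
      rintro x hx ⟨r, hr⟩
      refine h r x hx ?_
      rw [iterate_eq_pow, zpow_natCast]
      exact hr
    · intro h r w hw hw2
      refine strong_of_coh h w hw ⟨r, ?_⟩
      rw [iterate_eq_pow, zpow_natCast] at hw2
      exact hw2

theorem kStatement_iff (hF : IsFrobFamily C Fr Q) (c : ℤ) :
    KStatement H Fr Q T Y c ↔ (∀ m, 0 < m → (toCorr (T m)).gr Y c = ⊥) ∧
      (kerData H).gr Y c = ⊥ ∧ (cohData H Fr Q).gr Y c = ⊥ := by
  rw [kerData_iff, ← tate_iff hF]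
  constructor
  · intro h
    exact ⟨fun m hm => vanishesIn_iff'.1 (h.parshin m hm), h.injective, h.tate⟩
  · intro h
    exact ⟨fun m hm => vanishesIn_iff'.2 (h.1 m hm), h.2.1, h.2.2⟩

theorem fr_prod (hF : IsFrobFamily C Fr Q) (A Z : 𝒱.Obj) :
    prodMap (Fr A) (Fr Z) = Fr (A.prod Z) := by
  apply prod_ext
  · rw [hF.nat, prodMap_fst]
  · rw [hF.nat, prodMap_snd]

end

section

variable {k : Type} [Field k] {𝒱 : VarClass k} {C : TheoryData.{0, 0, 0} 𝒱 ℚ} {K : Type}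
  [Field K] [CharZero K] [IsAlgClosed K] {H : WeilTheoryData.{0, 0, 0} C K} [hC : IsChow C]
  [hH : IsWeil H] {Fr : ∀ X : 𝒱.Obj, X ⟶ X} {T : ℕ → MotivicData C} {A B Z : 𝒱.Obj} {I : Type}
  {f : I → ℤ[X]} {q s n : ℕ} {δ δ₂ e : ℝ}

theorem isFrobFamily {Q : ℕ} (h : IsHigherChow C Fr Q T) : IsFrobFamily C Fr Q where
  nat := h.natural
  frob := fun X => isFrobenius_bridge (h.frobenius X)

/-- The first theorem. -/
theorem kStatement_of (hB : ∀ s, 0 < s → BoundedAt f q s δ) (hδ0 : 0 < δ) (hδ1 : δ ≤ 1)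
    (hq : 1 < q) (hT : IsHigherChow C Fr (q ^ s) T) (he : e < (n + 1) * δ)
    (h : IsTripleFor H (Fr A) (Fr B) (Fr Z) n q s f) (hlev : HasLevelLE H (Fr Z) (q ^ s) e)
    (c : ℤ) (h0 : ∀ c' : ℕ, (c' : ℤ) ≤ c → 2 * c' + ⌊e⌋₊ ≤ 2 * Z.dim + n →
      KStatement H Fr (q ^ s) T (B.prod Z) c') : KStatement H Fr (q ^ s) T (A.prod Z) c := by
  have h1 := isChowProj h.projective h.standard
  have h2 := isWeilProj h.projective h.standard
  have hF := isFrobFamily hT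
  have hQ : q ^ s ≠ 0 := pow_ne_zero _ (by omega)
  rw [kStatement_iff hF]
  refine ⟨fun m hm => ?_, ?_, ?_⟩
  · refine vanish_all hB hδ0 hδ1 hq he h hlev (toCorr_isCorrTheory (hT.motivic m hm)) ?_ c
      fun c' h3 h4 => ((kStatement_iff hF _).1 (h0 c' h3 h4)).1 m hm
    rw [fr_prod hF]
    exact toCorr_actsAsPower (hT.power m hm _)
  · refine vanish_all hB hδ0 hδ1 hq he h hlev (kerData_isCorr H) ?_ c
      fun c' h3 h4 => ((kStatement_iff hF _).1 (h0 c' h3 h4)).2.1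
    rw [fr_prod hF]
    exact kerData_power H (hF.frob _)
  · refine vanish_all hB hδ0 hδ1 hq he h hlev (cohData_isCorr hF hQ h.standard.finite) ?_ c
      fun c' h3 h4 => ((kStatement_iff hF _).1 (h0 c' h3 h4)).2.2
    rw [fr_prod hF]
    exact cohData_power

/-- The second theorem. -/
theorem kStatement_narrow (hB : ∀ s, 0 < s → BoundedAt f q s δ)
    (hM : ∀ s, 0 < s → MomentAt f q s δ₂) (hδ0 : 0 < δ) (hδ₂ : 0 < δ₂) (hδ3 : 1 < 3 * δ)
    (hq : 1 < q) (hT : IsHigherChow C Fr (q ^ s) T)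
    (h : IsTripleFor H (Fr A) (Fr B) (Fr Z) 1 q s f) (hN : IsNarrow H (Fr Z) (q ^ s) δ δ₂)
    (hinv : HasInverse H Z) (c : ℤ)
    (h0 : ∀ c' : ℕ, (c' : ℤ) ≤ c → c' ≤ Z.dim → KStatement H Fr (q ^ s) T Z c')
    (h1 : KStatement H Fr (q ^ s) T (B.prod Z) 1) : KStatement H Fr (q ^ s) T (A.prod Z) c := by
  have h2 := isChowProj h.projective h.standard
  have h3 := isWeilProj h.projective h.standard
  have hF := isFrobFamily hT
  have hQ : q ^ s ≠ 0 := pow_ne_zero _ (by omega)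
  have h4 := (kStatement_iff hF _).1 h1
  rw [kStatement_iff hF]
  refine ⟨fun m hm => ?_, ?_, ?_⟩
  · refine vanish_all_narrow hB hM hδ0 hδ₂ hδ3 hq h hN hinv
      (toCorr_isCorrTheory (hT.motivic m hm)) ?_ c
      (fun c' h5 h6 => ((kStatement_iff hF _).1 (h0 c' h5 h6)).1 m hm) (h4.1 m hm)
    rw [fr_prod hF]
    exact toCorr_actsAsPower (hT.power m hm _)
  · refine vanish_all_narrow hB hM hδ0 hδ₂ hδ3 hq h hN hinv (kerData_isCorr H) ?_ c
      (fun c' h5 h6 => ((kStatement_iff hF _).1 (h0 c' h5 h6)).2.1) h4.2.1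
    rw [fr_prod hF]
    exact kerData_power H (hF.frob _)
  · refine vanish_all_narrow hB hM hδ0 hδ₂ hδ3 hq h hN hinv
      (cohData_isCorr hF hQ h.standard.finite) ?_ c
      (fun c' h5 h6 => ((kStatement_iff hF _).1 (h0 c' h5 h6)).2.2) h4.2.2
    rw [fr_prod hF]
    exact cohData_power

end

theorem lichtenbaumTheorem {I : Type} {f : I → ℤ[X]} {q : ℕ} {δ δ₂ : ℝ}
    (hB : ∀ s, 0 < s → BoundedAt f q s δ) (hM : ∀ s, 0 < s → MomentAt f q s δ₂) (hδ0 : 0 < δ)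
    (hδ1 : δ ≤ 1) (hδ₂ : 0 < δ₂) (hq : 1 < q) : LichtenbaumTheorem δ δ₂ q f := by
  intro k _ 𝒱 C _ K _ _ _ H _ s Fr T W _ hT hW
  refine ⟨?_, fun hδ3 => ?_⟩
  · intro n e A B Z he h hlev
    refine ⟨fun c h0 => kStatement_of hB hδ0 hδ1 hq hT he h hlev c h0, fun m h0 => ?_⟩
    refine hW.finite _ m (kStatement_of hB hδ0 hδ1 hq hT he h hlev _ fun c' h1 h2 =>
      hW.comparison _ _ (h0 c' h2 (Or.inl (by exact_mod_cast h1))))
      (kStatement_of hB hδ0 hδ1 hq hT he h hlev _ fun c' h1 h2 =>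
        hW.comparison _ _ (h0 c' h2 (Or.inr ?_)))
    rw [Obj.dim_prod] at h1
    omega
  · intro A X Z h hN hinv h1
    have key : ∀ c : ℤ, (∀ c' : ℕ, (c' : ℤ) ≤ c → c' ≤ Z.dim → KStatement H Fr (q ^ s) T Z c') →
        KStatement H Fr (q ^ s) T (A.prod Z) c := fun c h0 =>
      kStatement_narrow hB hM hδ0 hδ₂ hδ3 hq hT h hN hinv c h0 h1
    exact ⟨key, fun h0 m => hW.finite _ m (key _ fun c' _ h2 => h0 c' h2)
      (key _ fun c' _ h2 => h0 c' h2)⟩

end Pool.Agent.Q124.WE
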